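import Pool.Agent.Helper93.HZ.Spec1

/-!
# HZ, module BAD: bad cuts (2.5, 2.6)
-/

set_option autoImplicit false

open MulAction Pointwise

namespace Pool.Agent.Helper93.HZ

section

variable {G : Type} [Group G]

theorem bad_big (D : Setup G) (K : Cx G) (x : K.V) (C : Set K.V) :
    Big D K x C = B1 K x C ∨ Big D K x C = (B1 K x C)ᶜ := by
  unfold Big
  split_ifs
  · left; rfl
  · right; rfl

theorem bad_cross (hC : ST_CUT) (D : Setup G) (K : Cx G) {x : K.V} {C : Set K.V} (h : IsCut K x C)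
    {p q : K.V} (hpq : K.adj p q) (hne : ¬ (p ∈ Big D K x C ↔ q ∈ Big D K x C)) :
    (p = x ∧ q ∈ C) ∨ (q = x ∧ p ∈ C) := by
  have hne' : ¬ (p ∈ B1 K x C ↔ q ∈ B1 K x C) := by
    rcases bad_big D K x C with h1 | h1
    · rw [h1] at hne
      exact hne
    · rw [h1] at hne
      intro h2
      exact hne ⟨fun h3 h4 => h3 (h2.2 h4), fun h3 h4 => h3 (h2.1 h4)⟩
  obtain ⟨-, -, c3, -, -, -⟩ := hC G K x C h
  by_cases hp : p ∈ B1 K x C
  · have hq : q ∉ B1 K x C := fun hq => hne' ⟨fun _ => hq, fun _ => hp⟩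
    exact Or.inr (c3 q p (K.symm _ _ hpq) hq hp)
  · have hq : q ∈ B1 K x C := by
      by_contra hq
      exact hne' ⟨fun h => absurd h hp, fun h => absurd h hq⟩
    exact Or.inl (c3 p q hpq hp hq)

theorem bad_tri (K : Cx G) {x p q : K.V} (h : K.tri x p q) : K.tri x q p :=
  K.tri_rot _ _ _ (K.tri_swap _ _ _ h)

theorem bad_rtg (K : Cx G) {x y y' : K.V} (h : Relation.ReflTransGen (fun p q => K.tri x p q) y y') :
    Relation.ReflTransGen (fun p q => K.tri x p q) y' y := by
  induction h with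
  | refl => exact Relation.ReflTransGen.refl
  | tail _ hbc ih => exact Relation.ReflTransGen.head (bad_tri K hbc) ih

theorem bad_LC_eq (K : Cx G) {x y y' : K.V} (h : y' ∈ LC K x y) : LC K x y = LC K x y' := by
  ext z
  constructor
  · intro hz
    exact (bad_rtg K h).trans hz
  · intro hz
    exact Relation.ReflTransGen.trans h hz

theorem bad_cut_eq (K : Cx G) {x y : K.V} {C : Set K.V} (h : IsCut K x C) (hy : y ∈ C) :
    C = LC K x y := by
  obtain ⟨y0, -, h0⟩ := h
  rw [h0] at hy ⊢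
  exact bad_LC_eq K hy

/-- finitely many cuts separate two vertices -/
theorem bad_fin (hC : ST_CUT) (D : Setup G) (K : Cx G) (p q : K.V) :
    {e : K.V × Set K.V | IsCut K e.1 e.2 ∧
      ¬ (p ∈ Big D K e.1 e.2 ↔ q ∈ Big D K e.1 e.2)}.Finite := by
  have h := K.conn p q
  induction h with
  | refl =>
    refine Set.finite_empty.subset ?_
    rintro e ⟨-, he⟩
    exact he Iff.rfl
  | @tail b c hpb hbc ih =>
    refine (ih.union (Set.toFinite ({(b, LC K b c), (c, LC K c b)} : Set (K.V × Set K.V)))).subset ?_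
    rintro ⟨x, C⟩ ⟨h1, h2⟩
    by_cases h3 : p ∈ Big D K x C ↔ b ∈ Big D K x C
    · right
      have h4 : ¬ (b ∈ Big D K x C ↔ c ∈ Big D K x C) := fun h5 => h2 (h3.trans h5)
      rcases bad_cross hC D K h1 hbc h4 with ⟨h5, h6⟩ | ⟨h5, h6⟩
      · left
        have h7 : C = LC K x c := bad_cut_eq K h1 h6
        have h5' : b = x := h5
        show (x, C) = (b, LC K b c)
        rw [h5']
        exact congrArg (Prod.mk x) h7
      · right
        have h7 : C = LC K x b := bad_cut_eq K h1 h6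
        have h5' : c = x := h5
        show (x, C) = (c, LC K c b)
        rw [h5']
        exact congrArg (Prod.mk x) h7
    · left
      exact ⟨h1, h3⟩

theorem bad_conn (hC : ST_CUT) (D : Setup G) (K : Cx G) {x : K.V} {C : Set K.V} (h : IsCut K x C)
    (S : Set K.V) (hS : S = Big D K x C ∨ S = (Big D K x C)ᶜ) : ∀ p q, p ∈ S → q ∈ S →
    Relation.ReflTransGen (fun p q => K.adj p q ∧ p ∈ S ∧ q ∈ S) p q := by
  obtain ⟨-, -, -, -, c5, c6⟩ := hC G K x C h
  have hS' : S = B1 K x C ∨ S = (B1 K x C)ᶜ := by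
    rcases bad_big D K x C with h1 | h1 <;> rw [h1] at hS
    · exact hS
    · rw [compl_compl] at hS
      exact hS.symm
  rcases hS' with h1 | h1
  · rw [h1]
    exact c5
  · rw [h1]
    exact c6

/-- nesting principle -/
theorem bad_nest (hC : ST_CUT) (D : Setup G) (K : Cx G) {x x' : K.V} {C C' : Set K.V}
    (h : IsCut K x C) (h' : IsCut K x' C') (S : Set K.V)
    (hS : S = Big D K x C ∨ S = (Big D K x C)ᶜ) (hx' : x' ∉ S) :
    S ⊆ Big D K x' C' ∨ S ⊆ (Big D K x' C')ᶜ := by
  have key : ∀ p q, p ∈ S → q ∈ S → (p ∈ Big D K x' C' ↔ q ∈ Big D K x' C') := by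
    intro p q hp hq
    have h1 := bad_conn hC D K h S hS p q hp hq
    clear hq
    induction h1 with
    | refl => exact Iff.rfl
    | @tail b c hpb hbc ih =>
      refine Iff.trans ih ?_
      by_contra h2
      rcases bad_cross hC D K h' hbc.1 h2 with ⟨h5, -⟩ | ⟨h5, -⟩
      · exact hx' (h5 ▸ hbc.2.1)
      · exact hx' (h5 ▸ hbc.2.2)
  by_cases h1 : S ⊆ Big D K x' C'
  · exact Or.inl h1
  · right
    rw [Set.not_subset] at h1
    obtain ⟨p, hp, hp'⟩ := h1
    intro q hq hq'
    exact hp' ((key p q hp hq).2 hq')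

theorem bad_meet (hB : ST_BIG) (D : Setup G) (K : Cx G) {x x' : K.V} {C C' : Set K.V}
    (h : InE D K x C) (h' : InE D K x' C') : ∃ q, q ∈ Big D K x C ∧ q ∈ Big D K x' C' := by
  have : Infinite G := D.oneEnd.1
  obtain ⟨p⟩ := K.ne
  have h1 := (hB G D K x C h).1 p
  have h2 := (hB G D K x' C' h').1 p
  obtain ⟨g, hg⟩ := (h1.union h2).exists_notMem
  refine ⟨D.θ g • p, ?_, ?_⟩
  · by_contra h3
    exact hg (Or.inl h3)
  · by_contra h3
    exact hg (Or.inr h3)

/-- the big sides of bad cuts are comparable -/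
theorem bad_comp (hC : ST_CUT) (hB : ST_BIG) (D : Setup G) (K : Cx G) {p x x' : K.V}
    {C C' : Set K.V} (h : (x, C) ∈ Bad D K p) (h' : (x', C') ∈ Bad D K p) :
    Big D K x C ⊆ Big D K x' C' ∨ Big D K x' C' ⊆ Big D K x C := by
  obtain ⟨h1, h2, -⟩ := h
  obtain ⟨h1', h2', -⟩ := h'
  by_cases hx' : x' ∈ Big D K x C
  · right
    rcases bad_nest hC D K h1.1 h1'.1 (Big D K x C)ᶜ (Or.inr rfl) (fun h => h hx') with h3 | h3
    · exact absurd (h3 h2) h2'
    · exact Set.compl_subset_compl.mp h3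
  · left
    rcases bad_nest hC D K h1.1 h1'.1 (Big D K x C) (Or.inl rfl) hx' with h3 | h3
    · exact h3
    · obtain ⟨q, hq, hq'⟩ := bad_meet hB D K h1 h1'
      exact absurd hq' (h3 hq)

theorem bad_LC_smul (K : Cx G) (g : G) (x y : K.V) : LC K (g • x) (g • y) = g • LC K x y := by
  have key : ∀ (g : G) (x y z : K.V), z ∈ LC K x y → g • z ∈ LC K (g • x) (g • y) := by
    intro g x y z hz
    have hz' : Relation.ReflTransGen (fun p q => K.tri x p q) y z := hz
    show Relation.ReflTransGen (fun p q => K.tri (g • x) p q) (g • y) (g • z)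
    induction hz' with
    | refl => exact Relation.ReflTransGen.refl
    | tail h1 h2 ih => exact Relation.ReflTransGen.tail (ih h1) (K.smul_tri g _ _ _ h2)
  ext z
  rw [Set.mem_smul_set_iff_inv_smul_mem]
  constructor
  · intro hz
    have h1 := key g⁻¹ _ _ _ hz
    rw [inv_smul_smul, inv_smul_smul] at h1
    exact h1
  · intro hz
    have h1 := key g _ _ _ hz
    rw [smul_inv_smul] at h1
    exact h1

theorem bad_InE_smul (D : Setup G) (K : Cx G) (g : G) {x : K.V} {C : Set K.V} (h : InE D K x C) :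
    InE D K (g • x) (g • C) := by
  obtain ⟨⟨y, hy, hC⟩, h2⟩ := h
  refine ⟨⟨g • y, K.smul_adj g _ _ hy, by rw [hC, bad_LC_smul]⟩, ?_⟩
  intro k hk hkC hkE
  have h3 : (g⁻¹ * k * g) • x = x := by rw [mul_smul, mul_smul, hk, inv_smul_smul]
  have h4 : (g⁻¹ * k * g) • C = C := by rw [mul_smul, mul_smul, hkC, inv_smul_smul]
  have h5 : Ell D (g⁻¹ * k * g) := by
    obtain ⟨u, hu⟩ := hkE
    exact ⟨g⁻¹ • u, by rw [mul_smul, mul_smul, smul_inv_smul, hu]⟩
  have h6 := h2 _ h3 h4 h5
  rw [isOfFinOrder_iff_pow_eq_one] at h6 ⊢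
  obtain ⟨n, hn, h7⟩ := h6
  refine ⟨n, hn, ?_⟩
  have h8 : (g⁻¹ * k * g) ^ n = g⁻¹ * k ^ n * g := by
    have := conj_pow (i := n) (a := g⁻¹) (b := k)
    rw [inv_inv] at this
    exact this
  rw [h8] at h7
  calc k ^ n = g * (g⁻¹ * k ^ n * g) * g⁻¹ := by group
    _ = 1 := by rw [h7]; group

theorem bad_part1 (hC : ST_CUT) (hB : ST_BIG) (D : Setup G) (K : Cx G) (p : K.V) :
    (Bad D K p).Finite := by
  obtain ⟨hInf, S, hS, -⟩ := D.oneEnd
  have : Infinite G := hInf
  -- finitely many orbits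
  obtain ⟨Φ, hΦ⟩ : ∃ Φ : Set (K.V × Set K.V), Φ = ⋃ s ∈ S, {e : K.V × Set K.V |
      IsCut K e.1 e.2 ∧ ¬ (p ∈ Big D K e.1 e.2 ↔ D.θ s • p ∈ Big D K e.1 e.2)} := ⟨_, rfl⟩
  have hΦfin : Φ.Finite := by
    rw [hΦ]
    exact S.finite_toSet.biUnion fun s _ => bad_fin hC D K p (D.θ s • p)
  have hcov : Bad D K p ⊆ ⋃ φ ∈ Φ, {e : K.V × Set K.V | e ∈ Bad D K p ∧
      ∃ g : G, e = (D.θ g • φ.1, D.θ g • φ.2)} := by
    rintro ⟨x, C⟩ he
    have hbig := (hB G D K x C he.1).1 p
    have hex : ∃ g : G, ∃ s ∈ S,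
        ¬ (D.θ g • p ∈ Big D K x C ↔ D.θ (g * s) • p ∈ Big D K x C) := by
      by_contra hcon
      push Not at hcon
      have h1 : ∀ k : G, ∀ g : G, (D.θ g • p ∈ Big D K x C ↔ D.θ (g * k) • p ∈ Big D K x C) := by
        intro k
        have hk : k ∈ Subgroup.closure (S : Set G) := by rw [hS]; exact Subgroup.mem_top k
        induction hk using Subgroup.closure_induction with
        | mem s hs =>
          intro g
          exact hcon g s hs
        | one =>
          intro g
          rw [mul_one]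
        | mul a b _ _ iha ihb =>
          intro g
          rw [iha g, ihb (g * a), mul_assoc]
        | inv a _ iha =>
          intro g
          have := iha (g * a⁻¹)
          rw [inv_mul_cancel_right] at this
          exact this.symm
      obtain ⟨g, hg⟩ := hbig.exists_notMem
      have h2 : D.θ g • p ∈ Big D K x C := by
        by_contra h3
        exact hg h3
      have h3 := h1 g 1
      rw [one_mul, map_one, one_smul] at h3
      exact he.2.1 (h3.2 h2)
    obtain ⟨g, s, hs, hgs⟩ := hex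
    have hE := bad_InE_smul D K (D.θ g⁻¹) he.1
    have hBE := (hB G D K x C he.1).2 (D.θ g⁻¹)
    rw [Set.mem_iUnion₂]
    refine ⟨(D.θ g⁻¹ • x, D.θ g⁻¹ • C), ?_, he, g, ?_⟩
    · rw [hΦ, Set.mem_iUnion₂]
      refine ⟨s, hs, hE.1, ?_⟩
      show ¬ (p ∈ Big D K (D.θ g⁻¹ • x) (D.θ g⁻¹ • C) ↔
        D.θ s • p ∈ Big D K (D.θ g⁻¹ • x) (D.θ g⁻¹ • C))
      rw [hBE, Set.mem_smul_set_iff_inv_smul_mem, Set.mem_smul_set_iff_inv_smul_mem, ← map_inv,
        inv_inv, ← mul_smul, ← map_mul]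
      exact hgs
    · show (x, C) = (D.θ g • D.θ g⁻¹ • x, D.θ g • D.θ g⁻¹ • C)
      rw [map_inv, smul_inv_smul, smul_inv_smul]
  refine (hΦfin.biUnion fun φ _ => ?_).subset hcov
  -- one orbit: all big sides are equal
  have hsame : ∀ e e' : K.V × Set K.V, e ∈ Bad D K p → e' ∈ Bad D K p →
      (∃ g : G, e' = (D.θ g • e.1, D.θ g • e.2)) → Big D K e'.1 e'.2 ⊆ Big D K e.1 e.2 →
      Big D K e'.1 e'.2 = Big D K e.1 e.2 := by
    rintro ⟨x, C⟩ e' he he' ⟨g, rfl⟩ hsub
    have hBE := (hB G D K x C he.1).2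
    have hfinB := (hB G D K x C he.1).1 p
    simp only at hsub ⊢
    rw [hBE] at hsub ⊢
    by_contra hne
    -- powers of g map the big side strictly into itself
    have hpow : ∀ n : ℕ, D.θ g ^ n • Big D K x C ⊆ Big D K x C := by
      intro n
      induction n with
      | zero => rw [pow_zero, one_smul]
      | succ n ih =>
        rw [pow_succ, mul_smul]
        exact (Set.smul_set_mono hsub).trans ih
    have hinf : ∀ n : ℕ, 0 < n → g ^ n ≠ 1 := by
      intro n hn h1
      apply hne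
      apply Set.Subset.antisymm hsub
      obtain ⟨k, rfl⟩ : ∃ k, n = k + 1 := ⟨n - 1, by omega⟩
      have h2 : D.θ g ^ (k + 1) • Big D K x C = Big D K x C := by
        rw [← map_pow, h1, map_one, one_smul]
      calc Big D K x C = D.θ g ^ (k + 1) • Big D K x C := h2.symm
        _ = D.θ g • (D.θ g ^ k • Big D K x C) := by rw [pow_succ', mul_smul]
        _ ⊆ D.θ g • Big D K x C := Set.smul_set_mono (hpow k)
    have hnot : ∀ n : ℕ, D.θ ((g ^ n)⁻¹) • p ∉ Big D K x C := by
      intro n hn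
      apply he.2.1
      apply hpow n
      rw [Set.mem_smul_set_iff_inv_smul_mem, ← map_pow, ← map_inv]
      exact hn
    have hinj : Function.Injective (fun n : ℕ => (g ^ n)⁻¹) := by
      intro n k hnk
      have h1 : g ^ n = g ^ k := inv_injective hnk
      rcases lt_trichotomy n k with h | h | h
      · exfalso
        apply hinf (k - n) (by omega)
        have h2 : g ^ k = g ^ n * g ^ (k - n) := by rw [← pow_add]; congr 1; omega
        rw [← h1] at h2
        exact (left_eq_mul.mp h2)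
      · exact h
      · exfalso
        apply hinf (n - k) (by omega)
        have h2 : g ^ n = g ^ k * g ^ (n - k) := by rw [← pow_add]; congr 1; omega
        rw [h1] at h2
        exact (left_eq_mul.mp h2)
    exact (Set.infinite_range_of_injective hinj) (hfinB.subset (by
      rintro _ ⟨n, rfl⟩
      exact hnot n))
  by_cases hemp : ∃ e0 : K.V × Set K.V, e0 ∈ Bad D K p ∧ ∃ g : G, e0 = (D.θ g • φ.1, D.θ g • φ.2)
  · obtain ⟨e0, he0, g0, hg0⟩ := hemp
    -- a pair of separated vertices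
    have hcut := he0.1.1
    have hsep : ∃ q q' : K.V, ¬ (q ∈ Big D K e0.1 e0.2 ↔ q' ∈ Big D K e0.1 e0.2) := by
      obtain ⟨g, hg⟩ := ((hB G D K e0.1 e0.2 he0.1).1 p).exists_notMem
      refine ⟨p, D.θ g • p, fun h1 => he0.2.1 (h1.2 ?_)⟩
      by_contra h3
      exact hg h3
    obtain ⟨q, q', hqq⟩ := hsep
    refine (bad_fin hC D K q q').subset ?_
    rintro e ⟨he, g, hg⟩
    refine ⟨he.1.1, ?_⟩
    have hEq : Big D K e.1 e.2 = Big D K e0.1 e0.2 := by
      have hA : e = (D.θ (g * g0⁻¹) • e0.1, D.θ (g * g0⁻¹) • e0.2) := by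
        rw [hg, hg0]
        simp only [map_mul, map_inv, mul_smul, inv_smul_smul]
      have hB' : e0 = (D.θ (g0 * g⁻¹) • e.1, D.θ (g0 * g⁻¹) • e.2) := by
        rw [hg, hg0]
        simp only [map_mul, map_inv, mul_smul, inv_smul_smul]
      rcases bad_comp hC hB D K (x := e.1) (C := e.2) (x' := e0.1) (C' := e0.2) he he0 with h1 | h1
      · exact hsame e0 e he0 he ⟨_, hA⟩ h1
      · exact (hsame e e0 he he0 ⟨_, hB'⟩ h1).symm
    rw [hEq]
    exact hqq
  · refine Set.finite_empty.subset ?_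
    rintro e ⟨he, hg⟩
    exact hemp ⟨e, he, hg⟩

theorem bad_part2 (hC : ST_CUT) (hB : ST_BIG) (D : Setup G) (K : Cx G) (p x : K.V) (C : Set K.V)
    (he : (x, C) ∈ Bad D K p) : Bad D K x ⊂ Bad D K p := by
  obtain ⟨hE, hp, -⟩ := id he
  simp only at hE hp
  refine (Set.ssubset_iff_of_subset ?_).mpr ⟨(x, C), he, fun h => h.2.2 rfl⟩
  rintro ⟨x', C'⟩ ⟨hE', hx, hne⟩
  simp only at hE' hx hne
  obtain ⟨c1, c2, -, -, -, -⟩ := hC G K x C hE.1
  obtain ⟨y, hxy, hCy⟩ := id hE.1
  have hyC : y ∈ C := by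
    rw [hCy]
    exact Relation.ReflTransGen.refl
  -- if y is in the big side of e' then x' = y
  have hy : y ∈ Big D K x' C' → x' = y := by
    intro h1
    rcases bad_cross hC D K hE'.1 hxy (fun h2 => hx (h2.2 h1)) with ⟨h3, -⟩ | ⟨h3, -⟩
    · exact absurd h3 hne
    · exact h3.symm
  by_cases hx' : x' ∈ Big D K x C
  · rcases bad_nest hC D K hE.1 hE'.1 (Big D K x C)ᶜ (Or.inr rfl) (fun h => h hx') with h3 | h3
    · exfalso
      have hxB : x ∈ Big D K x C := by
        by_contra h4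
        exact hx (h3 h4)
      have hyS : y ∈ (Big D K x C)ᶜ := by
        rcases bad_big D K x C with h4 | h4
        · rw [h4] at hxB
          exact absurd hxB c1
        · rw [h4, compl_compl]
          exact c2 hyC
      have h5 := hy (h3 hyS)
      rw [← h5] at hyS
      exact hyS hx'
    · refine ⟨hE', h3 hp, ?_⟩
      intro h4
      have h5 : p = x' := h4
      rw [h5] at hp
      exact hp hx'
  · exfalso
    rcases bad_nest hC D K hE.1 hE'.1 (Big D K x C) (Or.inl rfl) hx' with h3 | h3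
    · have hxB : x ∉ Big D K x C := fun h4 => hx (h3 h4)
      have hyS : y ∈ Big D K x C := by
        rcases bad_big D K x C with h4 | h4
        · rw [h4]
          exact c2 hyC
        · rw [h4] at hxB
          exact absurd c1 (fun h5 => hxB h5)
      have h5 := hy (h3 hyS)
      rw [← h5] at hyS
      exact hx' hyS
    · obtain ⟨q, hq, hq'⟩ := bad_meet hB D K hE hE'
      exact h3 hq hq'

end

theorem st_BAD (hC : ST_CUT) (hB : ST_BIG) : ST_BAD := by
  intro G _ D K
  exact ⟨fun p => bad_part1 hC hB D K p, fun p x C h => bad_part2 hC hB D K p x C h⟩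

end Pool.Agent.Helper93.HZ
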