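import Pool.Agent.Helper93.HZ.Spec1

/-!
# HZ, module EX: a finitely presented infinite group has a complex
-/

set_option autoImplicit false

open MulAction Pointwise

namespace Pool.Agent.Helper93.HZ

/-- right translation on functions -/
def exPhi (G H : Type) [Group G] [Group H] : G →* MulAut (G → H) where
  toFun a :=
    { toFun := fun F g => F (g * a)
      invFun := fun F g => F (g * a⁻¹)
      left_inv := fun F => by
        funext g
        show F (g * a⁻¹ * a) = F g
        rw [inv_mul_cancel_right]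
      right_inv := fun F => by
        funext g
        show F (g * a * a⁻¹) = F g
        rw [mul_inv_cancel_right]
      map_mul' := fun F K => rfl }
  map_one' := by
    ext F g
    show F (g * 1) = F g
    rw [mul_one]
  map_mul' a b := by
    ext F g
    show F (g * (a * b)) = F (g * a * b)
    rw [mul_assoc]

theorem exPhi_apply {G H : Type} [Group G] [Group H] (a : G) (F : G → H) (g : G) :
    exPhi G H a F g = F (g * a) := rfl

/-- the ball of radius `m` -/
def exB {G : Type} [Group G] {n : ℕ} (π : FreeGroup (Fin n) →* G) (m : ℕ) : Set G :=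
  {g | ∃ L : List (Fin n × Bool), L.length ≤ m ∧ π (FreeGroup.mk L) = g}

theorem exB_finite {G : Type} [Group G] {n : ℕ} (π : FreeGroup (Fin n) →* G) (m : ℕ) :
    (exB π m).Finite := by
  refine ((List.finite_length_le (Fin n × Bool) m).image (fun L => π (FreeGroup.mk L))).subset ?_
  rintro g ⟨L, hL, rfl⟩
  exact ⟨L, hL, rfl⟩

theorem exB_inv {G : Type} [Group G] {n : ℕ} (π : FreeGroup (Fin n) →* G) (m : ℕ) {g : G}
    (hg : g ∈ exB π m) : g⁻¹ ∈ exB π m := by
  obtain ⟨L, hL, rfl⟩ := hg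
  refine ⟨FreeGroup.invRev L, ?_, ?_⟩
  · rw [FreeGroup.invRev_length]
    exact hL
  · rw [← FreeGroup.inv_mk, map_inv]

theorem exB_one {G : Type} [Group G] {n : ℕ} (π : FreeGroup (Fin n) →* G) (m : ℕ) :
    (1 : G) ∈ exB π m :=
  ⟨[], Nat.zero_le _, by rw [← FreeGroup.one_eq_mk, map_one]⟩

theorem ex_sc {G : Type} [Group G] {n : ℕ} {rels : Set (FreeGroup (Fin n))}
    (e : PresentedGroup rels ≃* G) (π : FreeGroup (Fin n) →* G)
    (hπ : π = e.toMonoidHom.comp (PresentedGroup.mk rels)) (m : ℕ)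
    (hr : ∀ r ∈ rels, r.toWord.length ≤ m) (H : Type) [Group H] (c : G → G → H)
    (h1 : ∀ x, c x x = 1)
    (h2 : ∀ x y z, x⁻¹ * y ∈ exB π m → y⁻¹ * z ∈ exB π m → x⁻¹ * z ∈ exB π m →
      c x y * c y z = c x z) :
    ∃ f : G → H, ∀ x y, x⁻¹ * y ∈ exB π m → c x y = (f x)⁻¹ * f y := by
  obtain ⟨s, hs⟩ : ∃ s : Fin n → G, s = fun i => π (FreeGroup.of i) := ⟨_, rfl⟩
  obtain ⟨θ, hθ⟩ : ∃ θ : Fin n → (G → H) ⋊[exPhi G H] G, θ = fun i => ⟨fun g => c g (g * s i), s i⟩ :=
    ⟨_, rfl⟩
  -- one letter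
  have hlet : ∀ (i : Fin n) (b : Bool), 1 ≤ m → FreeGroup.lift θ (FreeGroup.mk [(i, b)]) =
      ⟨fun g => c g (g * π (FreeGroup.mk [(i, b)])), π (FreeGroup.mk [(i, b)])⟩ := by
    intro i b hm
    have hpos : FreeGroup.lift θ (FreeGroup.of i) =
        ⟨fun g => c g (g * π (FreeGroup.of i)), π (FreeGroup.of i)⟩ := by
      rw [FreeGroup.lift_apply_of, hθ, hs]
    cases b with
    | true => exact hpos
    | false =>
      have e1 : (FreeGroup.mk [(i, false)] : FreeGroup (Fin n)) = (FreeGroup.of i)⁻¹ := rfl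
      rw [e1, map_inv, hpos, map_inv]
      ext g
      · rw [SemidirectProduct.inv_left, exPhi_apply, Pi.inv_apply]
        show (c (g * (π (FreeGroup.of i))⁻¹) (g * (π (FreeGroup.of i))⁻¹ * π (FreeGroup.of i)))⁻¹ =
          c g (g * (π (FreeGroup.of i))⁻¹)
        rw [inv_mul_cancel_right]
        have hB1 : g⁻¹ * (g * (π (FreeGroup.of i))⁻¹) ∈ exB π m := by
          rw [inv_mul_cancel_left]
          exact ⟨[(i, false)], hm, by rw [e1, map_inv]⟩
        have hB2 : (g * (π (FreeGroup.of i))⁻¹)⁻¹ * g ∈ exB π m := by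
          have := exB_inv π m hB1
          rw [mul_inv_rev, inv_inv] at this
          exact this
        have h3 := h2 g (g * (π (FreeGroup.of i))⁻¹) g hB1 hB2
          (by rw [inv_mul_cancel]; exact exB_one π m)
        rw [h1] at h3
        exact (eq_inv_of_mul_eq_one_left h3).symm
      · rw [SemidirectProduct.inv_right]
  -- short words
  have hword : ∀ L : List (Fin n × Bool), L.length ≤ m → FreeGroup.lift θ (FreeGroup.mk L) =
      ⟨fun g => c g (g * π (FreeGroup.mk L)), π (FreeGroup.mk L)⟩ := by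
    intro L
    induction L with
    | nil =>
      intro _
      rw [← FreeGroup.one_eq_mk, map_one, map_one]
      ext g
      · show (1 : H) = c g (g * 1)
        rw [mul_one, h1]
      · rfl
    | cons a L ih =>
      intro hL
      obtain ⟨i, b⟩ := a
      rw [List.length_cons] at hL
      have hm : 1 ≤ m := by omega
      have e1 : (FreeGroup.mk ((i, b) :: L) : FreeGroup (Fin n)) =
          FreeGroup.mk [(i, b)] * FreeGroup.mk L := by
        rw [FreeGroup.mul_mk]
        rfl
      rw [e1, map_mul, hlet i b hm, ih (by omega), map_mul]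
      ext g
      · rw [SemidirectProduct.mul_left, Pi.mul_apply, exPhi_apply]
        show c g (g * π (FreeGroup.mk [(i, b)])) *
          c (g * π (FreeGroup.mk [(i, b)])) (g * π (FreeGroup.mk [(i, b)]) * π (FreeGroup.mk L)) =
          c g (g * (π (FreeGroup.mk [(i, b)]) * π (FreeGroup.mk L)))
        rw [h2 g (g * π (FreeGroup.mk [(i, b)])) (g * π (FreeGroup.mk [(i, b)]) * π (FreeGroup.mk L))
          (by rw [inv_mul_cancel_left]; exact ⟨[(i, b)], hm, rfl⟩)
          (by rw [inv_mul_cancel_left]; exact ⟨L, by omega, rfl⟩)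
          (by
            rw [mul_assoc, inv_mul_cancel_left, ← map_mul, ← e1]
            exact ⟨(i, b) :: L, by rw [List.length_cons]; exact hL, rfl⟩), mul_assoc]
      · rfl
  -- relators act trivially
  have hrel : ∀ r ∈ rels, FreeGroup.lift θ r = 1 := by
    intro r hr'
    have h3 := hword r.toWord (hr r hr')
    rw [FreeGroup.mk_toWord] at h3
    have h4 : π r = 1 := by
      rw [hπ]
      show e (PresentedGroup.mk rels r) = 1
      have h5 : PresentedGroup.mk rels r = 1 :=
        (QuotientGroup.eq_one_iff r).mpr (Subgroup.subset_normalClosure hr')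
      rw [h5, map_one]
    rw [h3, h4]
    ext g
    · show c g (g * 1) = 1
      rw [mul_one, h1]
    · rfl
  obtain ⟨Θ, hΘ⟩ : ∃ Θ : G →* (G → H) ⋊[exPhi G H] G,
      Θ = (PresentedGroup.toGroup hrel).comp e.symm.toMonoidHom := ⟨_, rfl⟩
  have hΘπ : ∀ w, Θ (π w) = FreeGroup.lift θ w := by
    intro w
    rw [hΘ, hπ]
    show PresentedGroup.toGroup hrel (e.symm (e (PresentedGroup.mk rels w))) = _
    rw [MulEquiv.symm_apply_apply]
    rfl
  have hπsurj : ∀ x : G, ∃ w, π w = x := by
    intro x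
    obtain ⟨w, hw⟩ := QuotientGroup.mk_surjective (e.symm x)
    refine ⟨w, ?_⟩
    rw [hπ]
    show e (PresentedGroup.mk rels w) = x
    have h3 : PresentedGroup.mk rels w = e.symm x := hw
    rw [h3, MulEquiv.apply_symm_apply]
  have hright : ∀ x : G, (Θ x).right = x := by
    intro x
    obtain ⟨w, rfl⟩ := hπsurj x
    rw [hΘπ]
    have h3 : SemidirectProduct.rightHom.comp (FreeGroup.lift θ) = π := by
      apply FreeGroup.ext_hom
      intro i
      show (FreeGroup.lift θ (FreeGroup.of i)).right = π (FreeGroup.of i)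
      rw [FreeGroup.lift_apply_of, hθ, hs]
    exact DFunLike.congr_fun h3 w
  refine ⟨fun x => (Θ x).left 1, ?_⟩
  intro x y hxy
  obtain ⟨L, hL, hLb⟩ := hxy
  have hy : y = x * π (FreeGroup.mk L) := by rw [hLb, mul_inv_cancel_left]
  have h3 : (Θ y).left 1 = (Θ x).left 1 * c x y := by
    rw [hy, map_mul, SemidirectProduct.mul_left, Pi.mul_apply, exPhi_apply, hright, one_mul, hΘπ,
      hword L hL]
  show c x y = ((Θ x).left 1)⁻¹ * (Θ y).left 1
  rw [h3, inv_mul_cancel_left]

theorem st_EX : ST_EX := by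
  intro G _ hInf hfp
  classical
  obtain ⟨n, rels, hfin, ⟨e⟩⟩ := hfp
  obtain ⟨π, hπ⟩ : ∃ π : FreeGroup (Fin n) →* G,
    π = e.toMonoidHom.comp (PresentedGroup.mk rels) := ⟨_, rfl⟩
  obtain ⟨m, hm1, hr⟩ : ∃ m : ℕ, 1 ≤ m ∧ ∀ r ∈ rels, r.toWord.length ≤ m := by
    obtain ⟨M, hM⟩ := (hfin.image (fun r => r.toWord.length)).bddAbove
    exact ⟨M + 1, by omega, fun r hr => (hM ⟨r, hr, rfl⟩).trans (Nat.le_succ M)⟩
  have hπsurj : ∀ x : G, ∃ w, π w = x := by
    intro x
    obtain ⟨w, hw⟩ := QuotientGroup.mk_surjective (e.symm x)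
    refine ⟨w, ?_⟩
    rw [hπ]
    show e (PresentedGroup.mk rels w) = x
    have h3 : PresentedGroup.mk rels w = e.symm x := hw
    rw [h3, MulEquiv.apply_symm_apply]
  have hsymm : ∀ x y : G, x⁻¹ * y ∈ exB π m → y⁻¹ * x ∈ exB π m := by
    intro x y h
    have := exB_inv π m h
    rw [mul_inv_rev, inv_inv] at this
    exact this
  have hadjstep : ∀ (x : G) (i : Fin n) (b : Bool), x⁻¹ * (x * π (FreeGroup.mk [(i, b)])) ∈ exB π m := by
    intro x i b
    rw [inv_mul_cancel_left]
    exact ⟨[(i, b)], hm1, rfl⟩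
  refine ⟨{
    V := G
    act := inferInstance
    adj := fun x y => x ≠ y ∧ x⁻¹ * y ∈ exB π m
    tri := fun x y z => (x ≠ y ∧ x⁻¹ * y ∈ exB π m) ∧ (y ≠ z ∧ y⁻¹ * z ∈ exB π m) ∧
      (x ≠ z ∧ x⁻¹ * z ∈ exB π m)
    ne := ⟨1⟩
    symm := fun x y h => ⟨h.1.symm, hsymm x y h.2⟩
    irrefl := fun x h => h.1 rfl
    nbr := ?_
    tri_adj := fun x y z h => h.1
    tri_rot := fun x y z h => ⟨h.2.1, ⟨h.2.2.1.symm, hsymm x z h.2.2.2⟩, ⟨h.1.1.symm, hsymm x y h.1.2⟩⟩
    tri_swap := fun x y z h => ⟨⟨h.1.1.symm, hsymm x y h.1.2⟩, h.2.2, h.2.1⟩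
    smul_adj := ?_
    smul_tri := ?_
    conn := ?_
    sc := ?_
    finE := ?_
    finT := ?_
    stab := ?_ }⟩
  · -- neighbours
    intro x
    have hex : ∃ i : Fin n, π (FreeGroup.of i) ≠ 1 := by
      by_contra hcon
      push Not at hcon
      have h1 : π = 1 := by
        apply FreeGroup.ext_hom
        intro i
        rw [hcon i]
        rfl
      have h2 : ∀ y : G, y = 1 := by
        intro y
        obtain ⟨w, hw⟩ := hπsurj y
        rw [h1] at hw
        exact hw.symm
      have : Finite G := by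
        have : Subsingleton G := ⟨fun a b => by rw [h2 a, h2 b]⟩
        infer_instance
      exact not_finite G
    obtain ⟨i, hi⟩ := hex
    refine ⟨x * π (FreeGroup.of i), ?_, hadjstep x i true⟩
    intro h
    exact hi (left_eq_mul.mp h)
  · intro g x y h
    refine ⟨fun h1 => h.1 (mul_left_cancel h1), ?_⟩
    show (g * x)⁻¹ * (g * y) ∈ exB π m
    rw [mul_inv_rev, mul_assoc, inv_mul_cancel_left]
    exact h.2
  · intro g x y z h
    have key : ∀ a b : G, (a ≠ b ∧ a⁻¹ * b ∈ exB π m) → (g • a ≠ g • b ∧ (g • a)⁻¹ * (g • b) ∈ exB π m) := by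
      intro a b h
      refine ⟨fun h1 => h.1 (mul_left_cancel h1), ?_⟩
      show (g * a)⁻¹ * (g * b) ∈ exB π m
      rw [mul_inv_rev, mul_assoc, inv_mul_cancel_left]
      exact h.2
    exact ⟨key x y h.1, key y z h.2.1, key x z h.2.2⟩
  · -- connected
    have hpath : ∀ (L : List (Fin n × Bool)) (x : G),
        Relation.ReflTransGen (fun x y : G => x ≠ y ∧ x⁻¹ * y ∈ exB π m) x (x * π (FreeGroup.mk L)) := by
      intro L
      induction L with
      | nil =>
        intro x
        rw [← FreeGroup.one_eq_mk, map_one, mul_one]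
      | cons a L ih =>
        intro x
        obtain ⟨i, b⟩ := a
        have e1 : (FreeGroup.mk ((i, b) :: L) : FreeGroup (Fin n)) =
            FreeGroup.mk [(i, b)] * FreeGroup.mk L := by
          rw [FreeGroup.mul_mk]
          rfl
        rw [e1, map_mul, ← mul_assoc]
        by_cases hx : x = x * π (FreeGroup.mk [(i, b)])
        · rw [← hx]
          exact ih x
        · exact Relation.ReflTransGen.head ⟨hx, hadjstep x i b⟩ (ih _)
    intro x y
    obtain ⟨w, hw⟩ := hπsurj (x⁻¹ * y)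
    have h3 := hpath w.toWord x
    rw [FreeGroup.mk_toWord, hw, mul_inv_cancel_left] at h3
    exact h3
  · -- SC
    intro H _ c hc1 hc2
    obtain ⟨c', hc'⟩ : ∃ c' : G → G → H, c' = fun x y => if x = y then 1 else c x y := ⟨_, rfl⟩
    have h1 : ∀ x, c' x x = 1 := by
      intro x
      rw [hc']
      simp
    have hne : ∀ x y, x ≠ y → c' x y = c x y := by
      intro x y h
      rw [hc']
      simp [h]
    obtain ⟨f, hf⟩ := ex_sc e π hπ m hr H c' h1 (by
      intro x y z hxy hyz hxz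
      by_cases h12 : x = y
      · subst h12
        rw [h1, one_mul]
      · by_cases h23 : y = z
        · subst h23
          rw [h1, mul_one]
        · by_cases h13 : x = z
          · subst h13
            rw [h1, hne x y h12, hne y x h23]
            exact hc1 x y ⟨h12, hxy⟩
          · rw [hne x y h12, hne y z h23, hne x z h13]
            have h3 := hc2 x y z ⟨⟨h12, hxy⟩, ⟨h23, hyz⟩, ⟨h13, hxz⟩⟩
            have h4 := hc1 z x ⟨fun h => h13 h.symm, hsymm x z hxz⟩
            rw [mul_eq_one_iff_eq_inv] at h3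
            rw [h3, ← eq_inv_of_mul_eq_one_right h4])
    refine ⟨f, ?_⟩
    intro x y hxy
    rw [← hne x y hxy.1]
    exact hf x y hxy.2
  · -- finitely many orbits of darts
    refine ((exB_finite π m).image (fun b => orbit G ((1, b) : G × G))).subset ?_
    rintro _ ⟨⟨x, y⟩, hp, rfl⟩
    refine ⟨x⁻¹ * y, hp.2, ?_⟩
    show orbit G ((1, x⁻¹ * y) : G × G) = orbit G ((x, y) : G × G)
    rw [orbit_eq_iff]
    refine ⟨x⁻¹, ?_⟩
    show (x⁻¹ * x, x⁻¹ * y) = (1, x⁻¹ * y)
    rw [inv_mul_cancel]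
  · -- finitely many orbits of triangles
    refine (((exB_finite π m).prod (exB_finite π m)).image
      (fun b => orbit G ({1, b.1, b.2} : Set G))).subset ?_
    rintro _ ⟨s, ⟨x, y, z, ht, rfl⟩, rfl⟩
    refine ⟨(x⁻¹ * y, x⁻¹ * z), ⟨ht.1.2, ht.2.2.2⟩, ?_⟩
    show orbit G ({1, x⁻¹ * y, x⁻¹ * z} : Set G) = orbit G ({x, y, z} : Set G)
    rw [orbit_eq_iff]
    refine ⟨x⁻¹, ?_⟩
    show x⁻¹ • ({x, y, z} : Set G) = {1, x⁻¹ * y, x⁻¹ * z}
    rw [Set.smul_set_insert, Set.smul_set_insert, Set.smul_set_singleton]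
    show ({x⁻¹ * x, x⁻¹ * y, x⁻¹ * z} : Set G) = {1, x⁻¹ * y, x⁻¹ * z}
    rw [inv_mul_cancel]
  · -- stabilizers
    intro x
    left
    have h1 : stabilizer G x = ⊥ := by
      rw [eq_bot_iff]
      intro g hg
      rw [mem_stabilizer_iff] at hg
      have h2 : g * x = x := hg
      rw [Subgroup.mem_bot]
      exact mul_eq_right.mp h2
    rw [h1]
    infer_instance

end Pool.Agent.Helper93.HZ
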