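import Pool.Agent.Helper93.HZ.Spec2

/-!
# HZ, module POTW: potentials along lines and along the positions of the darts (4.5)
-/

set_option autoImplicit false

open MulAction Pointwise

namespace Pool.Agent.Helper93.HZ

section

variable {G : Type} [Group G]

/-- potential of a family of oriented edges of the tree -/
theorem potw_pot (hT : ST_TPOT) (D : Setup G) (H : Type) [Group H] (s : D.U → D.U → Prop)
    (γ : D.U → D.U → H) (hs : ∀ u w, s u w → D.T.Adj u w) (ha : ∀ u w, s u w → ¬ s w u) :
    ∃ f : D.U → H, ∀ u w, s u w → f w = f u * γ u w := by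
  classical
  obtain ⟨cc, hcc⟩ : ∃ cc : D.U → D.U → H, cc = fun u w =>
    if s u w then γ u w else if s w u then (γ w u)⁻¹ else 1 := ⟨_, rfl⟩
  obtain ⟨f, hf⟩ := hT D.U D.T D.tree.isAcyclic H cc (by
    intro u w _
    rw [hcc]
    by_cases h1 : s u w
    · have h2 := ha u w h1
      simp [h1, h2]
    · by_cases h2 : s w u
      · simp [h1, h2]
      · simp [h1, h2]) (by
    intro x y z h
    exact h.elim)
  refine ⟨f, fun u w h => ?_⟩
  have h1 := hf u w (hs u w h)
  rw [hcc] at h1
  simp only [h, if_true] at h1
  rw [h1, mul_inv_cancel_left]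

/-- nontrivial elements of the stabilizer of a hyperbolic vertex are hyperbolic -/
theorem potw_hyp (hTFD : ST_TFD) {D : Setup G} {K : Cx G} (P : Pts D K) {v : K.V}
    (hv : ¬ EllV D K v) {g : G} (hg : g • v = v) (hell : Ell D g) : g = 1 := by
  obtain ⟨-, -, ⟨z, k, hz, hz1, hk, hz2⟩, -⟩ := P.hyp v hv
  have hg' : g ∈ stabilizer G v := hg
  rw [hz] at hg'
  obtain ⟨m, rfl⟩ := Subgroup.mem_zpowers_iff.1 hg'
  by_contra hne
  have hm : m ≠ 0 := by
    rintro rfl
    exact hne (zpow_zero _)
  obtain ⟨u, hu⟩ := hell
  have h1 : Ell D (z ^ m.natAbs) := by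
    refine ⟨u, ?_⟩
    rcases Int.natAbs_eq m with h | h
    · rw [h, zpow_natCast] at hu
      exact hu
    · rw [h, zpow_neg, zpow_natCast, inv_smul_eq_iff] at hu
      exact hu.symm
  obtain ⟨w, hw⟩ := (hTFD G D z).1 _ (Int.natAbs_pos.2 hm) h1
  apply hv
  refine ⟨w, fun g hg => ?_⟩
  have hg' : g ∈ stabilizer G v := hg
  rw [hz] at hg'
  obtain ⟨j, rfl⟩ := Subgroup.mem_zpowers_iff.1 hg'
  have : z ∈ stabilizer G w := hw
  exact (stabilizer G w).zpow_mem this j

/-- hyperbolic vertices sharing a nontrivial element have the same pair of ends -/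
theorem potw_same (hTFD : ST_TFD) {D : Setup G} {K : Cx G} (P : Pts D K) {x y : K.V}
    (hx : ¬ EllV D K x) (hy : ¬ EllV D K y) (hf : ¬ Fr K x y) (hne : P.N x ≠ P.N y) :
    P.N y = P.M x := by
  unfold Fr at hf
  push Not at hf
  obtain ⟨g, hgx, hgy, hg1⟩ := hf
  have hgE : ¬ Ell D g := fun h => hg1 (potw_hyp hTFD P hx hgx h)
  obtain ⟨N, M, k, -, -, -, -, -, -, -, -, -, huniq⟩ := (hTFD G D g).2 hgE
  have hcomm : ∀ (v : K.V), g • v = v → (P.N v = N ∨ P.N v = M) ∧ (P.M v = N ∨ P.M v = M) := by
    intro v hv
    constructor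
    · refine huniq 1 one_pos (P.N v) (P.fN v) fun u => ?_
      rw [pow_one]
      have h1 := P.eN g v u
      rw [hv] at h1
      exact h1
    · refine huniq 1 one_pos (P.M v) (P.fM v) fun u => ?_
      rw [pow_one]
      have h1 := P.eM g v u
      rw [hv] at h1
      exact h1
  have hNM : P.N x ≠ P.M x := by
    obtain ⟨-, -, -, u, hu⟩ := P.hyp x hx
    intro h
    exact hu (by rw [h])
  obtain ⟨h1, h2⟩ := hcomm x hgx
  obtain ⟨h3, -⟩ := hcomm y hgy
  rcases h1 with h1 | h1 <;> rcases h2 with h2 | h2 <;> rcases h3 with h3 | h3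
  · exact absurd (h1.trans h2.symm) hNM
  · exact absurd (h1.trans h2.symm) hNM
  · exact absurd (h1.trans h3.symm) hne
  · exact h3.trans h2.symm
  · exact h3.trans h2.symm
  · exact absurd (h1.trans h3.symm) hne
  · exact absurd (h1.trans h2.symm) hNM
  · exact absurd (h1.trans h2.symm) hNM

theorem potw_adj {U : Type} {T : SimpleGraph U} {N : U → U} (hN : IsField T N) {u : U}
    (h : N u ≠ u) : T.Adj u (N u) := (hN.1 u).resolve_left h

/-- two different fields at a vertex where the first moves -/
theorem potw_back {U : Type} {T : SimpleGraph U} {N M : U → U} (hN : IsField T N)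
    (hM : IsField T M) {u : U} (hu : N u ≠ u) (hNM : N u ≠ M u) :
    M (N u) = u ∧ N (N u) ≠ u := by
  have ha := potw_adj hN hu
  constructor
  · by_contra h
    exact hNM ((hM.2 u (N u) ha).2 h).symm
  · exact (hN.2 u (N u) ha).1 rfl

end

theorem st_POTW (hTFC : ST_TFC) (hTPOT : ST_TPOT) (hTFD : ST_TFD) : ST_POTW := by
  intro G _ D K P Q H _ c hc
  classical
  -- potentials on lines
  have hlam : ∀ v : K.V, ∃ lam : D.U → H, ¬ EllV D K v → ∀ u, P.N v u ≠ P.M v u →
      lam (P.M v u) = lam u * c (tk Q (.l u (P.N v u) v)) (tk Q (.l u (P.M v u) v)) := by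
    intro v
    by_cases hv : EllV D K v
    · exact ⟨fun _ => 1, fun h => absurd hv h⟩
    · have hMv := (P.hyp v hv).2.1
      obtain ⟨f, hf⟩ := potw_pot hTPOT D H (fun u w => P.N v u ≠ P.M v u ∧ w = P.M v u)
        (fun u w => c (tk Q (.l u (P.N v u) v)) (tk Q (.l u w v)))
        (by
          rintro u w ⟨-, rfl⟩
          exact potw_adj (P.fM v) (hMv u))
        (by
          rintro u w ⟨-, rfl⟩ ⟨-, h2⟩
          exact ((P.fM v).2 u (P.M v u) (potw_adj (P.fM v) (hMv u))).1 rfl h2.symm)
      exact ⟨f, fun _ u hu => hf u (P.M v u) ⟨hu, rfl⟩⟩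
  choose lam hlam using hlam
  have hW : ∀ x y : K.V, ∃ W : D.U → H, K.adj x y →
      ((P.N x = P.N y → ∃ u', P.N x u' = u') → ∀ u, OnI (P.N x) (P.N y) u → P.N y u ≠ u →
        W (P.N y u) = W u * c (pos Q x y u) (pos Q y x u)) ∧
      (∀ u, P.N x u = u → W u = 1) ∧
      (∀ k : ℕ, Fr K x y → ¬ EllV D K x → P.N x ≠ P.N y →
        W ((P.N x)^[k] (Q.Q x y)) = lam x ((P.N x)^[k] (Q.Q x y))) ∧
      (∀ u, ¬ Fr K x y → ¬ EllV D K x → ¬ EllV D K y → P.N x ≠ P.N y →
        P.N x u ≠ P.M x u → W u = lam x u) := by
    intro x y
    obtain ⟨f, hf⟩ := potw_pot hTPOT D H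
      (fun u w => OnI (P.N x) (P.N y) u ∧ P.N y u ≠ u ∧ w = P.N y u)
      (fun u w => c (pos Q x y u) (pos Q y x u))
      (by
        rintro u w ⟨-, h2, rfl⟩
        exact potw_adj (P.fN y) h2)
      (by
        rintro u w ⟨-, h2, rfl⟩ ⟨-, -, h3⟩
        exact ((P.fN y).2 u (P.N y u) (potw_adj (P.fN y) h2)).1 rfl h3.symm)
    have hf' : ∀ (a : H) (u : D.U), OnI (P.N x) (P.N y) u → P.N y u ≠ u →
        a * f (P.N y u) = a * f u * c (pos Q x y u) (pos Q y x u) := by
      intro a u h1 h2
      rw [hf u (P.N y u) ⟨h1, h2, rfl⟩, mul_assoc]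
    by_cases hx : EllV D K x
    · -- elliptic
      obtain ⟨u0, hu0⟩ := P.ell x hx
      refine ⟨fun u => (f u0)⁻¹ * f u, fun _ => ⟨fun _ u h1 h2 => hf' _ u h1 h2, ?_,
        fun _ _ h => absurd hx h, fun _ _ h => absurd hx h⟩⟩
      intro u hu
      obtain ⟨k, hk⟩ := (hTFC D.U D.T D.tree (P.N x) (P.N x) (P.fN x) (P.fN x)).1 u u0
        (fun _ => hu) (fun _ => hu0)
      have hit : ∀ k : ℕ, (P.N x)^[k] u = u := by
        intro k
        induction k with
        | zero => rfl
        | succ k ih => rw [Function.iterate_succ_apply, hu, ih]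
      have huu : u0 = u := by
        rcases hk with h | h
        · rw [h, hit k]
        · rw [h, hit k]
      show (f u0)⁻¹ * f u = 1
      rw [huu, inv_mul_cancel]
    · obtain ⟨hNx, hMx, -, u1, hu1⟩ := P.hyp x hx
      by_cases hfr : Fr K x y
      · by_cases hne : P.N x = P.N y
        · refine ⟨fun u => f u, fun _ => ⟨?_, ?_, fun _ _ _ h => absurd hne h,
            fun _ h => absurd hfr h⟩⟩
          · intro _ u h1 h2
            exact hf u (P.N y u) ⟨h1, h2, rfl⟩
          · intro u hu
            exact absurd hu (hNx u)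
        · refine ⟨fun u => (lam x (Q.Q x y) * (f (Q.Q x y))⁻¹) * f u, fun hxy =>
            ⟨fun _ u h1 h2 => hf' _ u h1 h2, fun u hu => absurd hu (hNx u), ?_,
              fun _ h => absurd hfr h⟩⟩
          intro k _ _ _
          obtain ⟨hQ1, hQ2⟩ := Q.hyp x y hxy hfr hx hne
          obtain ⟨W, hWd⟩ : ∃ W : D.U → H,
            W = fun u => (lam x (Q.Q x y) * (f (Q.Q x y))⁻¹) * f u := ⟨_, rfl⟩
          have hinv : ∀ k : ℕ, P.N x ((P.N x)^[k] (Q.Q x y)) ≠ P.M x ((P.N x)^[k] (Q.Q x y)) ∧
              P.N x ((P.N x)^[k] (Q.Q x y)) ≠ P.N y ((P.N x)^[k] (Q.Q x y)) ∧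
              W ((P.N x)^[k] (Q.Q x y)) = lam x ((P.N x)^[k] (Q.Q x y)) := by
            intro k
            induction k with
            | zero =>
              refine ⟨hQ2, fun h => hNx _ (hQ1 h), ?_⟩
              rw [hWd]
              show lam x (Q.Q x y) * (f (Q.Q x y))⁻¹ * f (Q.Q x y) = lam x (Q.Q x y)
              rw [inv_mul_cancel_right]
            | succ k ih =>
              obtain ⟨i1, i2, i3⟩ := ih
              rw [Function.iterate_succ_apply']
              obtain ⟨a, ha⟩ : ∃ a, a = (P.N x)^[k] (Q.Q x y) := ⟨_, rfl⟩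
              rw [← ha] at i1 i2 i3 ⊢
              obtain ⟨b1, b2⟩ := potw_back (P.fN x) (P.fM x) (hNx a) i1
              obtain ⟨b3, -⟩ := potw_back (P.fN x) (P.fN y) (hNx a) i2
              have hNya : P.N x (P.N x a) ≠ P.N y (P.N x a) := by rw [b3]; exact b2
              have hnea : P.N y (P.N x a) ≠ P.N x a := by
                rw [b3]
                exact (hNx a).symm
              refine ⟨by rw [b1]; exact b2, hNya, ?_⟩
              have e1 := hf' (lam x (Q.Q x y) * (f (Q.Q x y))⁻¹) (P.N x a)
                (fun h => absurd h hNya) hnea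
              have e2 := hlam x hx (P.N x a) (by rw [b1]; exact b2)
              rw [b3] at e1
              rw [b1] at e2
              have e3 : W a = W (P.N x a) * c (pos Q x y (P.N x a)) (pos Q y x (P.N x a)) := by
                rw [hWd]
                exact e1
              have p1 : pos Q x y (P.N x a) = tk Q (.l (P.N x a) (P.N x (P.N x a)) x) := by
                unfold pos
                rw [if_neg (hNx _)]
                have h5 := TRel.t2 (Q := Q) x y (k + 1) hxy hfr hx hne
                rw [Function.iterate_succ_apply', Function.iterate_succ_apply', Function.iterate_succ_apply',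
                  ← ha] at h5
                unfold tk
                rw [Quot.sound h5]
              have p2 : pos Q y x (P.N x a) = tk Q (.l (P.N x a) a x) := by
                unfold pos
                rw [if_neg hnea, b3]
                have h5 := TRel.t2 (Q := Q) x y k hxy hfr hx hne
                rw [Function.iterate_succ_apply', ← ha] at h5
                unfold tk
                rw [Quot.sound (TRel.swU (Q := Q) (P.N x a) a y x),
                  Quot.sound (TRel.swV (Q := Q) a (P.N x a) y x), Quot.sound h5,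
                  Quot.sound (TRel.swL (Q := Q) a (P.N x a) x)]
              rw [p1, p2, i3, e2] at e3
              exact (mul_right_cancel e3).symm
          have h6 := (hinv k).2.2
          rw [hWd] at h6
          exact h6
      · by_cases hy : EllV D K y
        · refine ⟨fun u => f u, fun _ => ⟨?_, ?_, fun _ h => absurd h hfr,
            fun _ _ _ h => absurd hy h⟩⟩
          · intro _ u h1 h2
            exact hf u (P.N y u) ⟨h1, h2, rfl⟩
          · intro u hu
            exact absurd hu (hNx u)
        · by_cases hne : P.N x = P.N y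
          · refine ⟨fun u => f u, fun _ => ⟨?_, ?_, fun _ h => absurd h hfr,
              fun _ _ _ _ h => absurd hne h⟩⟩
            · intro _ u h1 h2
              exact hf u (P.N y u) ⟨h1, h2, rfl⟩
            · intro u hu
              exact absurd hu (hNx u)
          · -- type (f)
            have hNM := potw_same hTFD P hx hy hfr hne
            obtain ⟨W, hWd⟩ : ∃ W : D.U → H, W = fun u => (lam x u1 * (f u1)⁻¹) * f u := ⟨_, rfl⟩
            refine ⟨W, fun hxy => ⟨?_, ?_, fun _ h => absurd h hfr, ?_⟩⟩
            · intro _ u h1 h2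
              rw [hWd]
              exact hf' _ u h1 h2
            · intro u hu
              exact absurd hu (hNx u)
            · -- one step
              have hstep : ∀ u, P.N x u ≠ P.M x u →
                  (W (P.M x u) = lam x (P.M x u) ↔ W u = lam x u) := by
                intro u hu
                have e1 := hf' (lam x u1 * (f u1)⁻¹) u (fun h => absurd (h.trans (by rw [hNM])) hu)
                  (by rw [hNM]; exact hMx u)
                have e2 := hlam x hx u hu
                obtain ⟨b1, b2⟩ := potw_back (P.fM x) (P.fN x) (hMx u) hu.symm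
                obtain ⟨b3, b4⟩ := potw_back (P.fN x) (P.fM x) (hNx u) hu
                have p1 : pos Q x y u = tk Q (.l u (P.N x u) x) := by
                  unfold pos
                  rw [if_neg (hNx _)]
                  unfold tk
                  rw [Quot.sound (TRel.t4 (Q := Q) x y u (P.N x u) hxy hne hfr hx hy
                    ⟨rfl, b3, hNx u⟩)]
                have p2 : pos Q y x u = tk Q (.l u (P.M x u) x) := by
                  unfold pos
                  rw [if_neg (by rw [hNM]; exact hMx u), hNM]
                  unfold tk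
                  rw [Quot.sound (TRel.swU (Q := Q) u (P.M x u) y x),
                    Quot.sound (TRel.swV (Q := Q) (P.M x u) u y x),
                    Quot.sound (TRel.t4 (Q := Q) x y (P.M x u) u hxy hne hfr hx hy
                      ⟨b1, rfl, by rw [b1]; exact (hMx u).symm⟩),
                    Quot.sound (TRel.swL (Q := Q) (P.M x u) u x)]
                rw [p1, p2, hNM] at e1
                have e3 : W (P.M x u) = W u * c (tk Q (.l u (P.N x u) x)) (tk Q (.l u (P.M x u) x)) := by
                  rw [hWd]
                  exact e1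
                rw [e3, e2]
                exact ⟨fun h => mul_right_cancel h, fun h => by rw [h]⟩
              have hfwd : ∀ (k : ℕ) (u : D.U), P.N x u ≠ P.M x u → W u = lam x u →
                  P.N x ((P.M x)^[k] u) ≠ P.M x ((P.M x)^[k] u) ∧
                  W ((P.M x)^[k] u) = lam x ((P.M x)^[k] u) := by
                intro k
                induction k with
                | zero => exact fun u h1 h2 => ⟨h1, h2⟩
                | succ k ih =>
                  intro u h1 h2
                  obtain ⟨i1, i2⟩ := ih u h1 h2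
                  rw [Function.iterate_succ_apply']
                  obtain ⟨b1, b2⟩ := potw_back (P.fM x) (P.fN x) (hMx ((P.M x)^[k] u)) i1.symm
                  exact ⟨by rw [b1]; exact b2.symm, (hstep _ i1).2 i2⟩
              have hbwd : ∀ (k : ℕ) (u : D.U), P.N x u ≠ P.M x u → W u = lam x u →
                  P.N x ((P.N x)^[k] u) ≠ P.M x ((P.N x)^[k] u) ∧
                  W ((P.N x)^[k] u) = lam x ((P.N x)^[k] u) := by
                intro k
                induction k with
                | zero => exact fun u h1 h2 => ⟨h1, h2⟩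
                | succ k ih =>
                  intro u h1 h2
                  obtain ⟨i1, i2⟩ := ih u h1 h2
                  rw [Function.iterate_succ_apply']
                  obtain ⟨b1, b2⟩ := potw_back (P.fN x) (P.fM x) (hNx ((P.N x)^[k] u)) i1
                  have i3 : P.N x (P.N x ((P.N x)^[k] u)) ≠ P.M x (P.N x ((P.N x)^[k] u)) := by
                    rw [b1]
                    exact b2
                  refine ⟨i3, ?_⟩
                  have h5 := hstep _ i3
                  rw [b1] at h5
                  exact h5.1 i2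
              intro u _ _ _ _ hu
              have hW1 : W u1 = lam x u1 := by
                rw [hWd]
                show lam x u1 * (f u1)⁻¹ * f u1 = lam x u1
                rw [inv_mul_cancel_right]
              obtain ⟨k, hk⟩ := (hTFC D.U D.T D.tree (P.N x) (P.M x) (P.fN x) (P.fM x)).1 u1 u
                (fun h => absurd h hu1) (fun h => absurd h hu)
              rcases hk with h | h
              · rw [h]
                exact (hbwd k u1 hu1 hW1).2
              · rw [h]
                exact (hfwd k u1 hu1 hW1).2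
  choose W hW using hW
  refine ⟨lam, W, fun v u hv hu => hlam v hv u hu, ?_, ?_, ?_, ?_⟩
  · intro x y u hxy hnd hI hy
    exact (hW x y hxy).1 hnd u hI hy
  · intro x y u hxy hu
    exact (hW x y hxy).2.1 u hu
  · intro x y k hxy hfr hx hne
    exact (hW x y hxy).2.2.1 k hfr hx hne
  · intro x y u hxy hfr hx hy hne hu
    exact (hW x y hxy).2.2.2 u hfr hx hy hne hu

end Pool.Agent.Helper93.HZ
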